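import Mathlib
import Pool.Agent.Helper270.WPB
import Pool.Agent.V11259.IntegD
import Pool.Agent.V11259.IntegE

set_option autoImplicit false

/-! # MP_b13100_lc, Q1: integrability of finitely presented groups is undecidable. -/

namespace Pool.Agent.Results.MP_b13100_lc.IntegrabilityUndecidable

open Pool.Agent.V11259.Integ

/-- The group presented by a list of relators on `N` generators; a relator is a list of letters,
`(i, true)` being the generator `i` and `(i, false)` its inverse. -/
abbrev Pres (N : ℕ) (rs : List (List (Fin N × Bool))) : Type :=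
  PresentedGroup {r : FreeGroup (Fin N) | ∃ l ∈ rs, r = FreeGroup.mk l}

/-- Reading a letter: letters which are not among the `n` generators are dropped. -/
def letter (n : ℕ) (a : ℕ × Bool) : Option (Fin n × Bool) :=
  if h : a.1 < n then some (⟨a.1, h⟩, a.2) else none

/-- The group presented by a code: `(n, rs)` is the presentation with generators `0, …, n - 1`
and with the list `rs` of relators. -/
abbrev Grp (p : ℕ × List (List (ℕ × Bool))) : Type :=
  Pres p.1 (p.2.map (fun l => l.filterMap (letter p.1)))

instance (m : ℕ) : Finite (Gn m) := by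
  have e : Gn m ≃ (Fin m ⊕ Fin m ⊕ Fin m ⊕ Fin 4) :=
    { toFun := fun g => match g with
        | .x i => .inl i
        | .y i => .inr (.inl i)
        | .z i => .inr (.inr (.inl i))
        | .v => .inr (.inr (.inr 0))
        | .t => .inr (.inr (.inr 1))
        | .s => .inr (.inr (.inr 2))
        | .c => .inr (.inr (.inr 3))
      invFun := fun g => match g with
        | .inl i => .x i
        | .inr (.inl i) => .y i
        | .inr (.inr (.inl i)) => .z i
        | .inr (.inr (.inr 0)) => .v
        | .inr (.inr (.inr 1)) => .t
        | .inr (.inr (.inr 2)) => .s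
        | .inr (.inr (.inr 3)) => .c
      left_inv := fun g => by cases g <;> rfl
      right_inv := fun g => by
        rcases g with i | i | i | i
        · rfl
        · rfl
        · rfl
        · fin_cases i <;> rfl }
  exact Finite.of_equiv _ e.symm

theorem rel0_finite {m : ℕ} (R : Set (FreeGroup (Fin m))) (hR : R.Finite) : (rel0 R).Finite := by
  unfold rel0
  exact ((((((hR.image _).union (Set.finite_range _)).union (Set.finite_range _)).union
    (Set.finite_range _)).union (Set.finite_singleton _)).union (Set.finite_singleton _)).union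
    (Set.finite_singleton _)

section Code

variable {m N : ℕ} (e : Gn m ≃ Fin N)

/-- The word, in the new generators. -/
def wl (w : List (Fin m × Bool)) : List (Fin N × Bool) := w.map (fun a => (e (.x a.1), a.2))

/-- The last relator. -/
def lastRel (w : List (Fin m × Bool)) : List (Fin N × Bool) :=
  [(e .t, true)] ++ (wl e w ++ ([(e .v, true)] ++ (FreeGroup.invRev (wl e w) ++
    ([(e .v, false)] ++ ([(e .t, false)] ++ ([(e .v, true)] ++ (wl e w ++
    ([(e .v, false)] ++ (FreeGroup.invRev (wl e w) ++ [(e .c, false)])))))))))

theorem mk_wl (w : List (Fin m × Bool)) : FreeGroup.mk (wl e w) =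
    FreeGroup.freeGroupCongr e (FreeGroup.lift gx (FreeGroup.mk w)) := by
  have h1 : FreeGroup.mk (wl e w) = FreeGroup.map (fun i => e (.x i)) (FreeGroup.mk w) := by
    rw [FreeGroup.map.mk]; rfl
  have h2 : (FreeGroup.freeGroupCongr e).toMonoidHom.comp (FreeGroup.lift gx) =
      FreeGroup.map (fun i => e (.x i)) := by
    ext i
    simp [gx]
  rw [h1, ← h2]
  rfl

theorem mk_lastRel (w : List (Fin m × Bool)) : FreeGroup.mk (lastRel e w) =
    FreeGroup.freeGroupCongr e (relw (FreeGroup.mk w)) := by
  have e1 : ∀ a : Fin N, FreeGroup.mk [(a, true)] = FreeGroup.of a := fun a => rfl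
  have e2 : ∀ a : Fin N, FreeGroup.mk [(a, false)] = (FreeGroup.of a)⁻¹ := fun a => rfl
  have e3 : FreeGroup.mk (FreeGroup.invRev (wl e w)) = (FreeGroup.mk (wl e w))⁻¹ :=
    (FreeGroup.inv_mk).symm
  simp only [lastRel, ← FreeGroup.mul_mk, e1, e2, e3]
  rw [mk_wl, relw]
  simp only [map_mul, map_inv, gt, gv, gc, FreeGroup.freeGroupCongr_apply, FreeGroup.map.of]
  group

theorem lastRel_primrec : Primrec (lastRel e) := by
  have hw : Primrec (wl e) :=
    Primrec.list_map Primrec.id ((Primrec.dom_finite (fun a : Fin m × Bool =>
      ((e (.x a.1), a.2) : Fin N × Bool))).comp Primrec.snd).to₂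
  have hi : Primrec (fun w => FreeGroup.invRev (wl e w)) := by
    unfold FreeGroup.invRev
    exact Primrec.list_reverse.comp (Primrec.list_map hw
      ((Primrec.dom_finite (fun a : Fin N × Bool => ((a.1, !a.2) : Fin N × Bool))).comp
        Primrec.snd).to₂)
  unfold lastRel
  exact Primrec.list_append.comp (Primrec.const _) (Primrec.list_append.comp hw
    (Primrec.list_append.comp (Primrec.const _) (Primrec.list_append.comp hi
    (Primrec.list_append.comp (Primrec.const _) (Primrec.list_append.comp (Primrec.const _)
    (Primrec.list_append.comp (Primrec.const _) (Primrec.list_append.comp hw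
    (Primrec.list_append.comp (Primrec.const _) (Primrec.list_append.comp hi
    (Primrec.const _))))))))))

end Code

/-- Strong form: one varying relator. -/
theorem one_relator : ∃ (N : ℕ) (rs : List (List (Fin N × Bool))),
    ¬ ComputablePred (fun l : List (Fin N × Bool) => Integrable (Pres N (l :: rs))) := by
  classical
  obtain ⟨m, R, W, hW, hu⟩ := Pool.Agent.Helper270.WP.word_problem
  obtain ⟨N, ⟨e⟩⟩ := Finite.exists_equiv_fin (Gn m)
  let E := FreeGroup.freeGroupCongr e
  have hfin : (E '' rel0 (R : Set (FreeGroup (Fin m)))).Finite :=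
    (rel0_finite _ R.finite_toSet).image _
  let rs : List (List (Fin N × Bool)) := hfin.toFinset.toList.map FreeGroup.toWord
  have hrs : ∀ r : FreeGroup (Fin N), (∃ l ∈ rs, r = FreeGroup.mk l) ↔
      r ∈ E '' rel0 (R : Set (FreeGroup (Fin m))) := by
    intro r
    constructor
    · rintro ⟨l, hl, rfl⟩
      obtain ⟨r', hr', rfl⟩ := List.mem_map.mp hl
      rw [FreeGroup.mk_toWord]
      exact hfin.mem_toFinset.mp (Finset.mem_toList.mp hr')
    · intro hr
      exact ⟨r.toWord, List.mem_map.mpr ⟨r, Finset.mem_toList.mpr (hfin.mem_toFinset.mpr hr), rfl⟩,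
        FreeGroup.mk_toWord.symm⟩
  refine ⟨N, rs, fun hc => hu ?_⟩
  have hcomp : Computable (fun n => lastRel e (W n)) := (lastRel_primrec e).to_comp.comp hW
  refine (ComputablePred.computable_of_manyOneReducible
    (p := fun n => Integrable (Pres N (lastRel e (W n) :: rs))) ⟨_, hcomp, fun _ => Iff.rfl⟩
    hc).of_eq ?_
  intro n
  have hset : {r : FreeGroup (Fin N) | ∃ l ∈ lastRel e (W n) :: rs, r = FreeGroup.mk l} =
      E '' rels (R : Set (FreeGroup (Fin m))) (FreeGroup.mk (W n)) := by
    ext r
    rw [Set.mem_ofPred_eq, rels, Set.image_insert_eq, Set.mem_insert_iff, ← hrs]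
    simp only [List.mem_cons, exists_eq_or_imp, mk_lastRel]
    rfl
  have hiso : Integrable (Pres N (lastRel e (W n) :: rs)) ↔
      Integrable (Gp (R : Set (FreeGroup (Fin m))) (FreeGroup.mk (W n))) := by
    unfold Pres
    rw [hset]
    exact Integrable.congr (PresentedGroup.equivPresentedGroup _ e).symm
  rw [hiso]
  constructor
  · intro h
    by_contra hn
    exact not_integrable_of_notMem _ _ hn h
  · intro h
    exact integrable_of_mem _ _ h

/-- Letters as pairs of a number and a sign. -/
def up {N : ℕ} (l : List (Fin N × Bool)) : List (ℕ × Bool) := l.map (fun a => ((a.1 : ℕ), a.2))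

theorem up_primrec {N : ℕ} : Primrec (up (N := N)) :=
  Primrec.list_map Primrec.id ((Primrec.dom_finite (fun a : Fin N × Bool =>
    (((a.1 : ℕ), a.2) : ℕ × Bool))).comp Primrec.snd).to₂

theorem up_back {N : ℕ} (l : List (Fin N × Bool)) : (up l).filterMap (letter N) = l := by
  simp only [up, List.filterMap_map]
  conv_rhs => rw [← List.filterMap_some (l := l)]
  apply List.filterMap_congr
  intro a _
  simp [letter]

theorem integrable_code {N : ℕ} (rs : List (List (Fin N × Bool))) :
    Integrable (Grp (N, rs.map up)) ↔ Integrable (Pres N rs) := by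
  have hlist : (rs.map up).map (fun l => l.filterMap (letter N)) = rs := by
    rw [List.map_map]
    conv_rhs => rw [← List.map_id rs]
    apply List.map_congr_left
    intro a _
    exact up_back a
  unfold Grp
  dsimp only
  rw [hlist]

/-- The coding function. -/
def code {N : ℕ} (rs : List (List (Fin N × Bool))) (l : List (Fin N × Bool)) :
    ℕ × List (List (ℕ × Bool)) := (N, (l :: rs).map up)

theorem code_computable {N : ℕ} (rs : List (List (Fin N × Bool))) : Computable (code rs) := by
  have h : Primrec (code rs) := by
    unfold code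
    exact Primrec.pair (Primrec.const N) (Primrec.list_cons.comp up_primrec (Primrec.const _))
  exact h.to_comp

/-- **Integrability of finitely presented groups is undecidable.** -/
theorem result :
    (∃ (N : ℕ) (rs : List (List (Fin N × Bool))),
      ¬ ComputablePred (fun l : List (Fin N × Bool) => Integrable (Pres N (l :: rs)))) ∧
    ¬ ComputablePred (fun p : ℕ × List (List (ℕ × Bool)) => Integrable (Grp p)) := by
  refine ⟨one_relator, ?_⟩
  intro hc
  obtain ⟨N, rs, h⟩ := one_relator
  apply h
  have h2 : ComputablePred (fun l => Integrable (Grp (code rs l))) :=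
    ComputablePred.computable_of_manyOneReducible ⟨code rs, code_computable rs, fun _ => Iff.rfl⟩ hc
  exact h2.of_eq (fun l => integrable_code (l :: rs))

end Pool.Agent.Results.MP_b13100_lc.IntegrabilityUndecidable
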